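import Pool.Agent.Lib.MP_35c2eb_co.Ins.Linear
import Pool.Agent.Lib.MP_35c2eb_co.Ins.Sharp

set_option autoImplicit false

/-!
The exact height which controls the density of the `r`-shallow minors.

Let `C` be a monotone class of graphs. We show that the dimension of the posets of height at
most `h` with cover graph in `C` controls the density of the `r`-shallow minors of the graphs in
`C` if and only if `h ≥ 2 r + 2`. For `h ≥ 2 r + 2` the bound on the density depends only on the
bound on the dimension.
-/

namespace Pool.Agent.Results.MP_35c2eb_co.HeightThreshold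

/-- A class of graphs which is closed under subgraphs (and isomorphism): if `G` is in the class
and `H` has an injective homomorphism to `G`, then `H` is in the class. -/
def MonotoneClass (C : ∀ V : Type, SimpleGraph V → Prop) : Prop :=
  ∀ (V W : Type) (G : SimpleGraph V) (H : SimpleGraph W) (f : H →g G),
    Function.Injective f → C V G → C W H

/-- The poset `P` has height at most `h`: each chain has at most `h` elements. -/
def HeightLE (P : Type) [PartialOrder P] (h : ℕ) : Prop :=
  ∀ s : Finset P, IsChain (· ≤ ·) (s : Set P) → s.card ≤ h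

/-- The finite poset `P` has dimension at most `d`: its order is the intersection of `d` linear
orders, given by injective maps to the natural numbers. -/
def DimLE (P : Type) [PartialOrder P] (d : ℕ) : Prop :=
  ∃ f : Fin d → P → ℕ, (∀ i, Function.Injective (f i)) ∧ ∀ x y : P, x ≤ y ↔ ∀ i, f i x ≤ f i y

/-- The cover graph of a poset: two elements are adjacent when one covers the other. -/
def CoverGraph (P : Type) [PartialOrder P] : SimpleGraph P :=
  SimpleGraph.fromRel (fun x y : P => x ⋖ y)

/-- All finite posets of height at most `h` with cover graph in `C` have dimension at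
most `d`. -/
def DimBounded (C : ∀ V : Type, SimpleGraph V → Prop) (h d : ℕ) : Prop :=
  ∀ (P : Type) [Fintype P] [PartialOrder P], HeightLE P h → C P (CoverGraph P) → DimLE P d

/-- `H` is an `r`-shallow minor of `G`: there are pairwise disjoint vertex sets `B w` of `G`,
one for each vertex `w` of `H`, each inducing a connected subgraph of radius at most `r`, and for
each edge `w w'` of `H` there is an edge of `G` between `B w` and `B w'`. -/
def IsShallowMinor (r : ℕ) {V W : Type} (G : SimpleGraph V) (H : SimpleGraph W) : Prop :=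
  ∃ B : W → Set V, (∀ w w', w ≠ w' → Disjoint (B w) (B w')) ∧
    (∀ w, ∃ v ∈ B w, ∀ u ∈ B w, ∃ p : G.Walk v u,
      p.length ≤ r ∧ ∀ x ∈ p.support, x ∈ B w) ∧
    (∀ w w', H.Adj w w' → ∃ u ∈ B w, ∃ u' ∈ B w', G.Adj u u')

/-- All `r`-shallow minors `H` of finite graphs in `C` have at most `c` times as many edges as
vertices. -/
def ShallowSparse (C : ∀ V : Type, SimpleGraph V → Prop) (r c : ℕ) : Prop :=
  ∀ (V W : Type) [Fintype V] [Fintype W] (G : SimpleGraph V) (H : SimpleGraph W),
    C V G → IsShallowMinor r G H → Nat.card H.edgeSet ≤ c * Fintype.card W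

/-- For each `r` the least height which controls the density of the `r`-shallow minors is
`2 r + 2`. -/
theorem result : ∀ r h : ℕ,
    (2 * r + 2 ≤ h → ∀ C : ∀ V : Type, SimpleGraph V → Prop, MonotoneClass C →
      ∀ d : ℕ, DimBounded C h d →
        ShallowSparse C r (8 * (d + 1) * (Nat.log 2 (d + 1) + 1))) ∧
    (h < 2 * r + 2 → ∃ C : ∀ V : Type, SimpleGraph V → Prop, MonotoneClass C ∧
      DimBounded C h (256 * (r + 1) ^ 2) ∧ ∀ c : ℕ, ¬ ShallowSparse C r c) := by
  intro r h
  constructor
  · intro hh C hC d hd V W _ _ G H hG hB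
    refine Pool.Agent.Lib.MP_35c2eb_co.InsLinear.local_bound_linear r d V W G H ?_ hB
    intro P _ _ hht ⟨ι, hι, hcov⟩
    refine hd P (fun s hs => (hht s hs).trans hh) ?_
    refine hC V P G _ ⟨ι, ?_⟩ hι hG
    intro x y hxy
    rw [CoverGraph, SimpleGraph.fromRel_adj] at hxy
    rcases hxy.2 with h | h
    · exact hcov x y h
    · exact (hcov y x h).symm
  · intro hh
    refine ⟨Pool.Agent.Lib.MP_35c2eb_co.Ins.SubClass r, ?_, ?_, ?_⟩
    · intro V W G H f hf hG
      obtain ⟨ι, hι, hnode, hadj⟩ := hG
      refine ⟨fun w => ι (f w), hι.comp hf, fun w => hnode _, ?_⟩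
      intro u v huv
      exact hadj _ _ (f.map_adj huv)
    · intro P _ _ hht hP
      obtain ⟨ι, hι, hnode, hadj⟩ := hP
      refine Pool.Agent.Lib.MP_35c2eb_co.Ins.dim_of_sub r P
        (fun s hs => (hht s hs).trans (by omega)) ι hι hnode ?_
      intro x y hxy
      apply hadj
      rw [CoverGraph, SimpleGraph.fromRel_adj]
      exact ⟨hxy.ne, Or.inl hxy⟩
    · intro c hc
      have hmod := Pool.Agent.Lib.MP_35c2eb_co.Ins.exists_model r (2 * c + 1) (by omega)
      have h1 := hc _ _ _ _ (Pool.Agent.Lib.MP_35c2eb_co.Ins.partGraph_mem r (2 * c + 1)) hmod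
      have h2 := Pool.Agent.Lib.MP_35c2eb_co.Ins.card_edges (2 * c + 1)
      rw [Fintype.card_sum, Fintype.card_fin] at h1
      have h3 : c * (2 * c + 1 + (2 * c + 1)) < (2 * c + 1) * (2 * c + 1) := by nlinarith
      omega

end Pool.Agent.Results.MP_35c2eb_co.HeightThreshold
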